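import Mathlib
import Pool.Agent.W747.MB.Defs
import Pool.Agent.H749R2.Hyp2

/-!
# MB-FIN2: the tail estimate and the total area
-/

set_option autoImplicit false
open Metric MeasureTheory Set

namespace Pool.Agent.W230.MB

open Pool.Agent.W747.MB

lemma Y_two {n : ℕ} (hn : 2 ≤ n) {c : ℂ} (hc : c ∈ Bad n) : Y n c ≤ 2 * n := by
  have h := Pool.Agent.H749R2.Hyp.t_le_two hn hc.1
  unfold Y
  have hn0 : (0 : ℝ) ≤ n := Nat.cast_nonneg n
  nlinarith [mul_le_mul_of_nonneg_left h hn0]

/-- `Y` on small discs -/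
lemma Y_ratio {n : ℕ} (hn : 2 ≤ n) {x c : ℂ} {θ : ℝ} (h0 : 0 ≤ θ) (h1 : θ ≤ 1)
    (h : ‖c - x‖ ≤ ‖x‖ * (θ / ((n : ℝ) - 1))) :
    (1 - θ) * Y n x ≤ Y n c ∧ Y n c ≤ Real.exp θ * Y n x := by
  have hn' : (2 : ℝ) ≤ n := by exact_mod_cast hn
  have hn1 : (1 : ℝ) ≤ (n : ℝ) - 1 := by linarith
  have hcast : ((n - 1 : ℕ) : ℝ) = (n : ℝ) - 1 := by
    rw [Nat.cast_sub (by omega)]; simp
  have hx := norm_nonneg x
  have hq : θ / ((n : ℝ) - 1) ≤ 1 := by
    rw [div_le_one (by linarith)]; linarith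
  have hq0 : 0 ≤ θ / ((n : ℝ) - 1) := by positivity
  have hup : ‖c‖ ≤ ‖x‖ * (1 + θ / ((n : ℝ) - 1)) := by
    have h2 : ‖c‖ ≤ ‖c - x‖ + ‖x‖ := by
      have := norm_add_le (c - x) x
      rwa [sub_add_cancel] at this
    linarith
  have hlo : ‖x‖ * (1 - θ / ((n : ℝ) - 1)) ≤ ‖c‖ := by
    have h2 : ‖x‖ ≤ ‖c - x‖ + ‖c‖ := by
      have := norm_add_le (x - c) c
      rw [sub_add_cancel, norm_sub_rev] at this
      exact this
    linarith
  have hn0 : (0 : ℝ) ≤ n := by linarith
  constructor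
  · have h2 : (‖x‖ * (1 - θ / ((n : ℝ) - 1))) ^ (n - 1) ≤ ‖c‖ ^ (n - 1) :=
      pow_le_pow_left₀ (mul_nonneg hx (by linarith)) hlo _
    rw [mul_pow] at h2
    have h3 : 1 - θ ≤ (1 - θ / ((n : ℝ) - 1)) ^ (n - 1) := by
      have := one_add_mul_le_pow (a := -(θ / ((n : ℝ) - 1))) (by linarith) (n - 1)
      rw [hcast] at this
      have h4 : ((n : ℝ) - 1) * -(θ / ((n : ℝ) - 1)) = -θ := by
        have : (n : ℝ) - 1 ≠ 0 := by linarith
        field_simp
      rw [h4] at this
      have h5 : (1 : ℝ) + -(θ / ((n : ℝ) - 1)) = 1 - θ / ((n : ℝ) - 1) := by ring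
      rw [h5] at this
      linarith
    have h4 := mul_le_mul_of_nonneg_left h3 (pow_nonneg hx (n - 1))
    have h5 := mul_le_mul_of_nonneg_left (h4.trans h2) hn0
    unfold Y
    linarith
  · have h2 : ‖c‖ ^ (n - 1) ≤ (‖x‖ * (1 + θ / ((n : ℝ) - 1))) ^ (n - 1) :=
      pow_le_pow_left₀ (norm_nonneg c) hup _
    rw [mul_pow] at h2
    have h3 : (1 + θ / ((n : ℝ) - 1)) ^ (n - 1) ≤ Real.exp θ := by
      have h4 : 1 + θ / ((n : ℝ) - 1) ≤ Real.exp (θ / ((n : ℝ) - 1)) := by
        have := Real.add_one_le_exp (θ / ((n : ℝ) - 1)); linarith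
      calc (1 + θ / ((n : ℝ) - 1)) ^ (n - 1) ≤ (Real.exp (θ / ((n : ℝ) - 1))) ^ (n - 1) :=
            pow_le_pow_left₀ (by linarith) h4 _
        _ = Real.exp θ := by
            rw [← Real.exp_nat_mul, hcast]
            congr 1
            have : (n : ℝ) - 1 ≠ 0 := by linarith
            field_simp
    have h4 := mul_le_mul_of_nonneg_left h3 (pow_nonneg hx (n - 1))
    have h5 := mul_le_mul_of_nonneg_left (h2.trans h4) hn0
    unfold Y
    linarith

lemma exp3 : (10 : ℝ) ≤ Real.exp 3 := by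
  have h2 : Real.exp 3 = Real.exp 1 ^ 3 := by
    rw [← Real.exp_nat_mul]; norm_num
  have h3 : (2.7 : ℝ) ^ 3 ≤ Real.exp 1 ^ 3 :=
    pow_le_pow_left₀ (by norm_num) (by linarith [Real.exp_one_gt_d9]) 3
  rw [h2]
  norm_num at h3
  linarith

lemma log8 : Real.log 8 ≤ 3 := by
  rw [Real.log_le_iff_le_exp (by norm_num)]
  linarith [exp3]

lemma annulus (hB : P_BAS) (hV : P_VIT) (hN : P_ANN) {C₂ : ℝ} (hC : 0 < C₂)
    (hO : ∀ n : ℕ, 10 ^ 6 ≤ n → ∀ c₀ : ℂ, 10 ^ 20 ≤ Y n c₀ →
      Y n c₀ ≤ 3 * n → volume (Bad n ∩ dd n c₀ 1) ≤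
        ENNReal.ofReal (C₂ * (1 + Real.log (Y n c₀)) / Y n c₀) * volume (dd n c₀ 1))
    {n : ℕ} (hn : 10 ^ 6 ≤ n) {y : ℝ} (hy : 10 ^ 20 ≤ y) (hy2 : y ≤ 2 * n) :
    volume (Bad n ∩ {c | y ≤ Y n c ∧ Y n c ≤ 2 * y}) ≤
      ENNReal.ofReal (300000 * C₂ * (1 + Real.log y) / (n * y)) := by
  have hn2 : 2 ≤ n := by omega
  have hnR : (10 : ℝ) ^ 6 ≤ n := by exact_mod_cast hn
  have hn0 : (0 : ℝ) < n := by linarith
  have hn1 : (0 : ℝ) < (n : ℝ) - 1 := by linarith
  have hy0 : 0 < y := by linarith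
  have hy1 : 1 ≤ y := by linarith
  have hlog : 0 ≤ Real.log y := Real.log_nonneg hy1
  set F : ℝ := 50 * C₂ * (1 + Real.log y) / y with hF
  have hF0 : 0 ≤ F := by positivity
  have key := hV {c | y ≤ Y n c ∧ Y n c ≤ 2 * y} {c | y / 2 ≤ Y n c ∧ Y n c ≤ 4 * y} (Bad n)
    (fun x => ‖x‖ / (1000 * ((n : ℝ) - 1))) 4 F hF0 (fun x hx => by
      obtain ⟨hx1, hx2⟩ := hx
      have hYdef : Y n x = n * ‖x‖ ^ (n - 1) := rfl
      have hx0 : 0 < ‖x‖ := by
        rcases (norm_nonneg x).eq_or_lt with h | h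
        · exfalso
          rw [hYdef, ← h, zero_pow (by omega), mul_zero] at hx1
          linarith
        · exact h
      have hx4 : ‖x‖ ≤ 4 := by
        by_contra hcon
        rw [not_le] at hcon
        have h1 : ‖x‖ ≤ ‖x‖ ^ (n - 1) := le_self_pow₀ (by linarith) (by omega)
        have h2 := mul_le_mul_of_nonneg_left h1 hn0.le
        rw [← hYdef] at h2
        nlinarith
      refine ⟨by positivity, ?_, ?_, ?_⟩
      · rw [div_le_iff₀ (by positivity)]
        nlinarith
      · intro c hc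
        rw [mem_closedBall, dist_eq_norm] at hc
        have h1 := Y_ratio (θ := 1 / 1000) hn2 (x := x) (c := c) (by norm_num) (by norm_num) (by
          refine hc.trans (le_of_eq ?_)
          field_simp)
        have h2 : Real.exp (1 / 1000) ≤ 2 := by
          have h3 : Real.exp (1 / 1000 : ℝ) ≤ Real.exp (Real.log 2) :=
            Real.exp_le_exp.2 (by linarith [Real.log_two_gt_d9])
          rwa [Real.exp_log (by norm_num)] at h3
        constructor
        · show y / 2 ≤ Y n c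
          linarith [h1.1]
        · show Y n c ≤ 4 * y
          have h3 : Real.exp (1 / 1000) * Y n x ≤ 2 * Y n x :=
            mul_le_mul_of_nonneg_right h2 (by linarith)
          linarith [h1.2]
      · have h5r : 5 * (‖x‖ / (1000 * ((n : ℝ) - 1))) = ‖x‖ / (200 * ((n : ℝ) - 1)) := by
          field_simp
          norm_num
        rw [h5r]
        by_cases h3n : Y n x ≤ 3 * n
        · obtain ⟨_, hL1, _⟩ := hB n hn2 x (by linarith)
          have hnorm : ‖L n x 1‖ = ((n : ℝ) - 1) / ‖x‖ := by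
            rw [hL1, norm_div]
            congr 1
            have : ((n : ℂ) - 1) = (((n : ℝ) - 1 : ℝ) : ℂ) := by push_cast; rfl
            rw [this, Complex.norm_real, Real.norm_eq_abs, abs_of_pos hn1]
          have hdd : dd n x 1 = closedBall x (‖x‖ / (200 * ((n : ℝ) - 1))) := by
            unfold dd
            rw [hnorm]
            congr 1
            field_simp
          have h1 := hO n hn x (hy.trans hx1) h3n
          rw [hdd] at h1
          refine h1.trans ?_
          rw [Complex.volume_closedBall, Complex.volume_closedBall]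
          have hr0 : 0 ≤ ‖x‖ / (1000 * ((n : ℝ) - 1)) := by positivity
          rw [← h5r, ENNReal.ofReal_mul (by norm_num), mul_pow]
          have e1 : ENNReal.ofReal 5 ^ 2 = ENNReal.ofReal 25 := by
            rw [← ENNReal.ofReal_pow (by norm_num)]; norm_num
          rw [e1]
          have hreal : C₂ * (1 + Real.log (Y n x)) / Y n x * 25 ≤ F := by
            have hYx : 0 < Y n x := by linarith
            have h4 : Real.log (Y n x) ≤ Real.log y + 1 := by
              have h5 : Real.log (Y n x) ≤ Real.log (2 * y) := Real.log_le_log hYx hx2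
              rw [Real.log_mul (by norm_num) hy0.ne'] at h5
              linarith [Real.log_two_lt_d9]
            have h6 : C₂ * (1 + Real.log (Y n x)) / Y n x ≤ C₂ * (2 * (1 + Real.log y)) / y := by
              refine div_le_div₀ (by positivity) (mul_le_mul_of_nonneg_left (by linarith) hC.le)
                hy0 hx1
            rw [hF]
            calc C₂ * (1 + Real.log (Y n x)) / Y n x * 25 ≤
                C₂ * (2 * (1 + Real.log y)) / y * 25 := mul_le_mul_of_nonneg_right h6 (by norm_num)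
              _ = 50 * C₂ * (1 + Real.log y) / y := by ring
          calc ENNReal.ofReal (C₂ * (1 + Real.log (Y n x)) / Y n x) *
                (ENNReal.ofReal 25 * ENNReal.ofReal (‖x‖ / (1000 * ((n : ℝ) - 1))) ^ 2 *
                  (NNReal.pi : ENNReal))
              = ENNReal.ofReal (C₂ * (1 + Real.log (Y n x)) / Y n x) * ENNReal.ofReal 25 *
                (ENNReal.ofReal (‖x‖ / (1000 * ((n : ℝ) - 1))) ^ 2 *
                  (NNReal.pi : ENNReal)) := by ring
            _ = ENNReal.ofReal (C₂ * (1 + Real.log (Y n x)) / Y n x * 25) *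
                (ENNReal.ofReal (‖x‖ / (1000 * ((n : ℝ) - 1))) ^ 2 *
                  (NNReal.pi : ENNReal)) := by
                rw [ENNReal.ofReal_mul' (by norm_num)]
            _ ≤ _ := by
                gcongr
        · have hempty : Bad n ∩ closedBall x (‖x‖ / (200 * ((n : ℝ) - 1))) = ∅ := by
            rw [eq_empty_iff_forall_notMem]
            rintro c ⟨hc1, hc2⟩
            rw [mem_closedBall, dist_eq_norm] at hc2
            have h1 := Y_ratio (θ := 1 / 200) hn2 (x := x) (c := c) (by norm_num) (by norm_num) (by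
              refine hc2.trans (le_of_eq ?_)
              field_simp)
            have h2 := Y_two hn2 hc1
            rw [not_le] at h3n
            linarith [h1.1]
          rw [hempty, measure_empty]
          exact bot_le)
  have hU := hN n hn2 (y / 2) (4 * y) (by positivity) (by linarith) (by linarith)
  have h8 : 4 * y / (y / 2) = 8 := by
    field_simp
    norm_num
  rw [h8] at hU
  refine key.trans ?_
  calc ENNReal.ofReal F * volume {c | y / 2 ≤ Y n c ∧ Y n c ≤ 4 * y}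
      ≤ ENNReal.ofReal F * ENNReal.ofReal (2000 * Real.log 8 / n) := by gcongr
    _ = ENNReal.ofReal (F * (2000 * Real.log 8 / n)) := (ENNReal.ofReal_mul hF0).symm
    _ ≤ _ := by
        apply ENNReal.ofReal_le_ofReal
        have h1 : 2000 * Real.log 8 / n ≤ 6000 / n :=
          div_le_div_of_nonneg_right (by linarith [log8]) hn0.le
        calc F * (2000 * Real.log 8 / n) ≤ F * (6000 / n) := mul_le_mul_of_nonneg_left h1 hF0
          _ = _ := by
            rw [hF]
            field_simp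
            norm_num

lemma tail (hB : P_BAS) (hV : P_VIT) (hN : P_ANN) {C₂ : ℝ} (hC : 0 < C₂)
    (hO : ∀ n : ℕ, 10 ^ 6 ≤ n → ∀ c₀ : ℂ, 10 ^ 20 ≤ Y n c₀ →
      Y n c₀ ≤ 3 * n → volume (Bad n ∩ dd n c₀ 1) ≤
        ENNReal.ofReal (C₂ * (1 + Real.log (Y n c₀)) / Y n c₀) * volume (dd n c₀ 1))
    {n : ℕ} (hn : 10 ^ 6 ≤ n) (K : ℕ) : ∀ y : ℝ, 10 ^ 20 ≤ y → 2 * (n : ℝ) < 2 ^ K * y →
    volume (Bad n ∩ {c | y ≤ Y n c}) ≤
      ENNReal.ofReal (600000 * C₂ * (2 + Real.log y) / (n * y)) := by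
  have hn2 : 2 ≤ n := by omega
  have hempty : ∀ y : ℝ, 2 * (n : ℝ) < y → volume (Bad n ∩ {c | y ≤ Y n c}) = 0 := by
    intro y hy
    have : Bad n ∩ {c | y ≤ Y n c} = ∅ := by
      rw [eq_empty_iff_forall_notMem]
      rintro c ⟨hc1, hc2⟩
      have hc2' : y ≤ Y n c := hc2
      linarith [Y_two hn2 hc1]
    rw [this, measure_empty]
  induction K with
  | zero =>
    intro y _ hy
    rw [pow_zero, one_mul] at hy
    rw [hempty y hy]
    exact bot_le
  | succ K ih =>
    intro y hy1 hy2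
    rcases lt_or_ge (2 * (n : ℝ)) y with h | h
    · rw [hempty y h]
      exact bot_le
    have hnR : (10 : ℝ) ^ 6 ≤ n := by exact_mod_cast hn
    have hn0 : (0 : ℝ) < n := by linarith
    have hy0 : 0 < y := by linarith
    have hlog : 0 ≤ Real.log y := Real.log_nonneg (by linarith)
    have h1 := annulus hB hV hN hC hO hn hy1 h
    have h2 := ih (2 * y) (by linarith) (by rw [pow_succ] at hy2; linarith)
    have hsub : Bad n ∩ {c | y ≤ Y n c} ⊆ (Bad n ∩ {c | y ≤ Y n c ∧ Y n c ≤ 2 * y}) ∪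
        (Bad n ∩ {c | 2 * y ≤ Y n c}) := by
      rintro c ⟨hc1, hc2⟩
      rcases le_total (Y n c) (2 * y) with h3 | h3
      · exact Or.inl ⟨hc1, hc2, h3⟩
      · exact Or.inr ⟨hc1, h3⟩
    refine (measure_mono hsub).trans ((measure_union_le _ _).trans ((add_le_add h1 h2).trans ?_))
    rw [← ENNReal.ofReal_add (by positivity) (by
      have : 0 ≤ Real.log (2 * y) := Real.log_nonneg (by linarith)
      positivity)]
    apply ENNReal.ofReal_le_ofReal
    rw [Real.log_mul (by norm_num) hy0.ne']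
    have e1 : 300000 * C₂ * (1 + Real.log y) / (n * y) +
        600000 * C₂ * (2 + (Real.log 2 + Real.log y)) / (n * (2 * y)) =
        300000 * C₂ * (3 + Real.log 2 + 2 * Real.log y) / (n * y) := by
      field_simp
      ring
    rw [e1]
    refine div_le_div_of_nonneg_right ?_ (by positivity)
    have h3 : 3 + Real.log 2 + 2 * Real.log y ≤ 2 * (2 + Real.log y) := by
      linarith [Real.log_two_lt_d9]
    have h4 := mul_le_mul_of_nonneg_left h3 (show 0 ≤ 300000 * C₂ by positivity)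
    linarith

lemma vol_small {n : ℕ} (hn : 2 ≤ n) (S : Set ℂ) :
    volume (Bad n ∩ S) ≤ ENNReal.ofReal 16 := by
  have hsub : Bad n ∩ S ⊆ closedBall (0 : ℂ) 2 := by
    rintro c ⟨hc, _⟩
    rw [mem_closedBall, dist_zero_right]
    exact Pool.Agent.H749R2.Hyp.x_le_two hn hc.1
  refine (measure_mono hsub).trans ?_
  rw [Complex.volume_closedBall, ← ENNReal.ofReal_pow (by norm_num)]
  have : (NNReal.pi : ENNReal) = ENNReal.ofReal Real.pi := by
    rw [ENNReal.ofReal, ENNReal.coe_inj]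
    ext
    rw [Real.coe_toNNReal _ Real.pi_pos.le]
    rfl
  rw [this, ← ENNReal.ofReal_mul (by norm_num)]
  apply ENNReal.ofReal_le_ofReal
  nlinarith [Real.pi_le_four]

theorem main (_hL : P_ALV) (hB : P_BAS) (hV : P_VIT) (hN : P_ANN) (hO : P_LOC) : P_FIN2 := by
  obtain ⟨C₂, hC, hO⟩ := hO
  refine ⟨10 ^ 26 + 10 ^ 8 * C₂, by positivity, fun n hn Y₀ hY => ?_⟩
  have hn0 : (0 : ℝ) < n := by
    have : (2 : ℝ) ≤ n := by exact_mod_cast hn
    linarith
  have hY0 : 0 < Y₀ := by linarith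
  have hlog : 0 ≤ Real.log Y₀ := Real.log_nonneg hY
  have hempty : 2 * (n : ℝ) < Y₀ → volume (Bad n ∩ {c | Y₀ ≤ Y n c}) = 0 := by
    intro hy
    have : Bad n ∩ {c | Y₀ ≤ Y n c} = ∅ := by
      rw [eq_empty_iff_forall_notMem]
      rintro c ⟨hc1, hc2⟩
      have hc2' : Y₀ ≤ Y n c := hc2
      linarith [Y_two hn hc1]
    rw [this, measure_empty]
  rcases lt_or_ge (2 * (n : ℝ)) Y₀ with h | h
  · rw [hempty h]
    exact bot_le
  rcases lt_or_ge n (10 ^ 6) with hn6 | hn6
  · refine (vol_small hn _).trans (ENNReal.ofReal_le_ofReal ?_)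
    rw [le_div_iff₀ (by positivity)]
    have hn6' : (n : ℝ) ≤ 10 ^ 6 := by exact_mod_cast hn6.le
    have h1 : (n : ℝ) * Y₀ ≤ 10 ^ 6 * (2 * 10 ^ 6) :=
      mul_le_mul hn6' (h.trans (by linarith)) hY0.le (by norm_num)
    have h2 : (10 : ℝ) ^ 26 * 1 ≤ (10 ^ 26 + 10 ^ 8 * C₂) * (1 + Real.log Y₀) :=
      mul_le_mul (by linarith [mul_pos (show (0:ℝ) < 10 ^ 8 by norm_num) hC]) (by linarith)
        (by norm_num) (by positivity)
    linarith
  have hex : ∀ y : ℝ, 0 < y → ∃ K : ℕ, 2 * (n : ℝ) < 2 ^ K * y := by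
    intro y hy
    obtain ⟨K, hK⟩ := pow_unbounded_of_one_lt (2 * (n : ℝ) / y) (show (1 : ℝ) < 2 by norm_num)
    exact ⟨K, by rwa [div_lt_iff₀ hy] at hK⟩
  rcases le_total (10 ^ 20) Y₀ with hbig | hsmall
  · obtain ⟨K, hK⟩ := hex Y₀ hY0
    refine (tail hB hV hN hC hO hn6 K Y₀ hbig hK).trans (ENNReal.ofReal_le_ofReal ?_)
    refine div_le_div_of_nonneg_right ?_ (by positivity)
    have h1 : 600000 * C₂ * (2 + Real.log Y₀) ≤ 1200000 * C₂ * (1 + Real.log Y₀) := by
      have := mul_nonneg hC.le hlog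
      linarith
    have h2 : 1200000 * C₂ * (1 + Real.log Y₀) ≤
        (10 ^ 26 + 10 ^ 8 * C₂) * (1 + Real.log Y₀) :=
      mul_le_mul_of_nonneg_right (by linarith) (by linarith)
    linarith
  · obtain ⟨K, hK⟩ := hex (10 ^ 20) (by norm_num)
    have h1 := tail hB hV hN hC hO hn6 K (10 ^ 20) le_rfl hK
    set b : ℝ := min (10 ^ 20) (2 * n) with hb
    have hnR : (10 : ℝ) ^ 6 ≤ n := by exact_mod_cast hn6
    have hb1 : 1 ≤ b := le_min (by norm_num) (by linarith)
    have hb2 : b ≤ 12 * n := (min_le_right _ _).trans (by linarith)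
    have h2 := hN n hn 1 b one_pos hb1 hb2
    have hsub : Bad n ∩ {c | Y₀ ≤ Y n c} ⊆ {c : ℂ | 1 ≤ Y n c ∧ Y n c ≤ b} ∪
        (Bad n ∩ {c | 10 ^ 20 ≤ Y n c}) := by
      rintro c ⟨hc1, hc2⟩
      have hc2' : Y₀ ≤ Y n c := hc2
      rcases le_total (10 ^ 20) (Y n c) with h3 | h3
      · exact Or.inr ⟨hc1, h3⟩
      · exact Or.inl ⟨hY.trans hc2', le_min h3 (Y_two hn hc1)⟩
    refine (measure_mono hsub).trans ((measure_union_le _ _).trans ((add_le_add h2 h1).trans ?_))
    have hl10 : Real.log (10 ^ 20) ≤ 60 := by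
      rw [Real.log_pow]
      have : Real.log 10 ≤ 3 := by
        rw [Real.log_le_iff_le_exp (by norm_num)]
        exact exp3
      push_cast
      linarith
    have hlb : Real.log (b / 1) ≤ 60 := by
      rw [div_one]
      exact (Real.log_le_log (by linarith) (min_le_left _ _)).trans hl10
    have hlb0 : 0 ≤ Real.log (b / 1) := by rw [div_one]; exact Real.log_nonneg hb1
    have hl20 : 0 ≤ Real.log (10 ^ 20) := Real.log_nonneg (by norm_num)
    rw [← ENNReal.ofReal_add (by positivity) (by positivity)]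
    apply ENNReal.ofReal_le_ofReal
    have h3 : 2000 * Real.log (b / 1) / n ≤ 120000 / n :=
      div_le_div_of_nonneg_right (by linarith) hn0.le
    have h4 : 600000 * C₂ * (2 + Real.log (10 ^ 20)) / (n * 10 ^ 20) ≤
        600000 * C₂ * 62 / (n * 10 ^ 20) := by
      refine div_le_div_of_nonneg_right ?_ (by positivity)
      exact mul_le_mul_of_nonneg_left (by linarith) (by positivity)
    have h5 : 120000 / (n : ℝ) + 600000 * C₂ * 62 / (n * 10 ^ 20) =
        (120000 * 10 ^ 20 + 600000 * C₂ * 62) / (n * 10 ^ 20) := by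
      field_simp
    have h6 : (120000 * 10 ^ 20 + 600000 * C₂ * 62) / (n * 10 ^ 20) ≤
        (10 ^ 26 + 10 ^ 8 * C₂) * (1 + Real.log Y₀) / (n * Y₀) := by
      refine div_le_div₀ (by positivity) ?_ (by positivity)
        (mul_le_mul_of_nonneg_left hsmall hn0.le)
      have h7 : (10 ^ 26 + 10 ^ 8 * C₂) * 1 ≤ (10 ^ 26 + 10 ^ 8 * C₂) * (1 + Real.log Y₀) :=
        mul_le_mul_of_nonneg_left (by linarith) (by positivity)
      linarith
    linarith

theorem main3 (h2 : P_FIN2) (hL : P_ALV) (hN : P_ANN) : P_FIN3 := by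
  obtain ⟨C, hC, h2⟩ := h2
  refine ⟨C + 10 ^ 8, by positivity, fun n hn => ?_⟩
  have hn0 : (0 : ℝ) < n := by
    have : (2 : ℝ) ≤ n := by exact_mod_cast hn
    linarith
  rcases lt_or_ge n (10 ^ 6) with hn6 | hn6
  · have h := vol_small hn univ
    rw [inter_univ] at h
    refine h.trans (ENNReal.ofReal_le_ofReal ?_)
    rw [le_div_iff₀ hn0]
    have hn6' : (n : ℝ) ≤ 10 ^ 6 := by exact_mod_cast hn6.le
    linarith
  · have h1 := hN n hn (1 / 3) 1 (by norm_num) (by norm_num) (by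
      have hnR : (10 : ℝ) ^ 6 ≤ n := by exact_mod_cast hn6
      linarith)
    have h3 := h2 n hn 1 le_rfl
    have hsub : Bad n ⊆ {c : ℂ | 1 / 3 ≤ Y n c ∧ Y n c ≤ 1} ∪ (Bad n ∩ {c | 1 ≤ Y n c}) := by
      intro c hc
      rcases le_total 1 (Y n c) with h4 | h4
      · exact Or.inr ⟨hc, h4⟩
      · exact Or.inl ⟨(hL n hn6 c hc).1, h4⟩
    refine (measure_mono hsub).trans ((measure_union_le _ _).trans ((add_le_add h1 h3).trans ?_))
    rw [Real.log_one, add_zero, mul_one, mul_one]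
    have hl3 : Real.log (1 / (1 / 3)) ≤ 3 := by
      have : (1 : ℝ) / (1 / 3) = 3 := by norm_num
      rw [this]
      linarith [Real.log_le_sub_one_of_pos (show (0:ℝ) < 3 by norm_num)]
    have hl30 : 0 ≤ Real.log (1 / (1 / 3)) := Real.log_nonneg (by norm_num)
    rw [← ENNReal.ofReal_add (by positivity) (by positivity)]
    apply ENNReal.ofReal_le_ofReal
    rw [← add_div]
    exact div_le_div_of_nonneg_right (by linarith) hn0.le

end Pool.Agent.W230.MB
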